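import Mathlib

set_option autoImplicit false

/-!
The smallest relative term of the `n`-term type A sequences is exactly `1 / 2 ^ (n - 1)`.

Idea: the partial sums of a type A sequence solve an integer linear system whose matrix has rows
`(e_j - e_i) + (e_j - e_k)`; by multilinearity its determinant is a sum of `2 ^ (n - 1)`
determinants of matrices with at most one `1` and at most one `-1` in each row, and each of these
lies in `{-1, 0, 1}`.
-/

namespace Pool.Agent.Results.MP_6f4934_co.MinRelativeTerm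

open Finset

/-- The coefficient vector, in the unknowns `d_0, ..., d_{n-1}`, of the type A equation
`∑_{i ≤ t < j} d_t = ∑_{j ≤ t < k} d_t`. -/
def coeffVec (n i j k : ℕ) : Fin n → ℝ := fun t =>
  if i ≤ (t : ℕ) ∧ (t : ℕ) < j then 1 else if j ≤ (t : ℕ) ∧ (t : ℕ) < k then -1 else 0

/-- `d` satisfies the type A equation given by `i, j, k` (positions counted from `0`). -/
def Satisfies {n : ℕ} (d : Fin n → ℝ) (i j k : ℕ) : Prop :=
  ∑ t ∈ univ.filter (fun t : Fin n => i ≤ (t : ℕ) ∧ (t : ℕ) < j), d t =
    ∑ t ∈ univ.filter (fun t : Fin n => j ≤ (t : ℕ) ∧ (t : ℕ) < k), d t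

/-- `d` is a type A sequence: all its terms are positive and it satisfies `n - 1` linearly
independent type A equations (given by triples `i < j < k ≤ n`). -/
def IsTypeA {n : ℕ} (d : Fin n → ℝ) : Prop :=
  (∀ t, 0 < d t) ∧ ∃ i j k : Fin (n - 1) → ℕ,
    (∀ r, i r < j r ∧ j r < k r ∧ k r ≤ n ∧ Satisfies d (i r) (j r) (k r)) ∧
    LinearIndependent ℝ (fun r => coeffVec n (i r) (j r) (k r))

/-- The set `A_n` of the `n`-term type A sequences in smallest-integer format. -/
def typeASet (n : ℕ) : Set (Fin n → ℕ) :=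
  {d | IsTypeA (fun t => (d t : ℝ)) ∧ (Finset.univ : Finset (Fin n)).gcd d = 1}

/-! ### Matrices with at most one `1` and at most one `-1` in each row -/

/-- Each row has entries in `{-1, 0, 1}`, at most one `1` and at most one `-1`. -/
def IsNet {m : ℕ} (N : Matrix (Fin m) (Fin m) ℤ) : Prop :=
  ∀ r, (∀ c, N r c = -1 ∨ N r c = 0 ∨ N r c = 1) ∧
    (∀ c c', N r c = 1 → N r c' = 1 → c = c') ∧
    (∀ c c', N r c = -1 → N r c' = -1 → c = c')

theorem isNet_row_sum {m : ℕ} (N : Matrix (Fin m) (Fin m) ℤ) (hN : IsNet N) (r : Fin m)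
    (h1 : ∃ c, N r c = 1) (h2 : ∃ c, N r c = -1) : ∑ c, N r c = 0 := by
  obtain ⟨a, ha⟩ := h1
  obtain ⟨b, hb⟩ := h2
  have hab : a ≠ b := by
    rintro rfl
    rw [ha] at hb
    norm_num at hb
  have : ∀ c, N r c = (if c = a then 1 else 0) + (if c = b then (-1 : ℤ) else 0) := by
    intro c
    by_cases hca : c = a
    · subst hca
      rw [if_pos rfl, if_neg hab, ha]
      norm_num
    · by_cases hcb : c = b
      · subst hcb
        rw [if_neg hca, if_pos rfl, hb]
        norm_num
      · rw [if_neg hca, if_neg hcb]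
        rcases (hN r).1 c with h | h | h
        · exact absurd ((hN r).2.2 c b h hb) hcb
        · rw [h]; norm_num
        · exact absurd ((hN r).2.1 c a h ha) hca
  rw [Finset.sum_congr rfl (fun c _ => this c), Finset.sum_add_distrib]
  simp

theorem isNet_det {m : ℕ} : ∀ (N : Matrix (Fin m) (Fin m) ℤ), IsNet N → |N.det| ≤ 1 := by
  induction m with
  | zero => intro N _; simp
  | succ m ih =>
    intro N hN
    by_cases hall : ∀ r, (∃ c, N r c = 1) ∧ (∃ c, N r c = -1)
    · have h0 : N.det = 0 := by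
        rw [← Matrix.exists_mulVec_eq_zero_iff]
        refine ⟨fun _ => 1, ?_, ?_⟩
        · intro h
          have := congrFun h 0
          simp at this
        · funext r
          simp only [Matrix.mulVec, dotProduct, mul_one, Pi.zero_apply]
          exact isNet_row_sum N hN r (hall r).1 (hall r).2
      rw [h0]; norm_num
    · push Not at hall
      obtain ⟨r, hr⟩ := hall
      -- row r has at most one nonzero entry
      have hone : ∃ c0, ∀ c, c ≠ c0 → N r c = 0 := by
        by_cases h1 : ∃ c, N r c = 1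
        · obtain ⟨c0, hc0⟩ := h1
          refine ⟨c0, fun c hc => ?_⟩
          rcases (hN r).1 c with h | h | h
          · exact absurd h (hr ⟨c0, hc0⟩ c)
          · exact h
          · exact absurd ((hN r).2.1 c c0 h hc0) hc
        · push Not at h1
          by_cases h2 : ∃ c, N r c = -1
          · obtain ⟨c0, hc0⟩ := h2
            refine ⟨c0, fun c hc => ?_⟩
            rcases (hN r).1 c with h | h | h
            · exact absurd ((hN r).2.2 c c0 h hc0) hc
            · exact h
            · exact absurd h (h1 c)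
          · push Not at h2
            refine ⟨0, fun c _ => ?_⟩
            rcases (hN r).1 c with h | h | h
            · exact absurd h (h2 c)
            · exact h
            · exact absurd h (h1 c)
      obtain ⟨c0, hc0⟩ := hone
      rw [Matrix.det_succ_row N r, Finset.sum_eq_single c0]
      · rw [abs_mul, abs_mul]
        have hsub : IsNet (N.submatrix r.succAbove c0.succAbove) := by
          intro r'
          refine ⟨fun c => (hN (r.succAbove r')).1 _, ?_, ?_⟩
          · intro c c' h h'
            exact Fin.succAbove_right_injective ((hN (r.succAbove r')).2.1 _ _ h h')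
          · intro c c' h h'
            exact Fin.succAbove_right_injective ((hN (r.succAbove r')).2.2 _ _ h h')
        have h3 := ih _ hsub
        have h4 : |N r c0| ≤ 1 := by
          rcases (hN r).1 c0 with h | h | h <;> rw [h] <;> norm_num
        have h5 : |(-1 : ℤ) ^ ((r : ℕ) + (c0 : ℕ))| = 1 := by
          rw [abs_pow]; norm_num
        rw [h5, one_mul]
        calc |N r c0| * |(N.submatrix r.succAbove c0.succAbove).det|
            ≤ 1 * 1 := mul_le_mul h4 h3 (abs_nonneg _) (by norm_num)
          _ = 1 := by norm_num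
      · intro c _ hc
        rw [hc0 c hc]; ring
      · intro h
        exact absurd (Finset.mem_univ _) h

/-- If every row of `M` is the sum of two network rows, then `|det M| ≤ 2 ^ m`. -/
theorem det_sum_le {m : ℕ} (R1 R2 : Fin m → Fin m → ℤ)
    (h : ∀ s : Finset (Fin m), IsNet (Matrix.of (s.piecewise R1 R2))) :
    |(Matrix.of (R1 + R2)).det| ≤ 2 ^ m := by
  have e : (Matrix.of (R1 + R2)).det
      = ∑ s : Finset (Fin m), (Matrix.of (s.piecewise R1 R2)).det :=
    (Matrix.detRowAlternating (n := Fin m) (R := ℤ)).toMultilinearMap.map_add_univ R1 R2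
  rw [e]
  calc |∑ s : Finset (Fin m), (Matrix.of (s.piecewise R1 R2)).det|
      ≤ ∑ s : Finset (Fin m), |(Matrix.of (s.piecewise R1 R2)).det| :=
        Finset.abs_sum_le_sum_abs _ _
    _ ≤ ∑ _s : Finset (Fin m), (1 : ℤ) := Finset.sum_le_sum (fun s _ => isNet_det _ (h s))
    _ = 2 ^ m := by simp

/-! ### The lower bound -/

/-- Integer coefficients of a type A equation, extended to all positions. -/
def co (i j k t : ℕ) : ℤ := if i ≤ t ∧ t < j then 1 else if j ≤ t ∧ t < k then -1 else 0

theorem coeffVec_eq (n i j k : ℕ) (t : Fin n) : coeffVec n i j k t = ((co i j k t : ℤ) : ℝ) := by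
  unfold coeffVec co
  split_ifs <;> simp

/-- Sanity check: an equation holds exactly when the coefficient vector annihilates `d`. -/
theorem satisfies_iff {n : ℕ} (d : Fin n → ℝ) (i j k : ℕ) :
    Satisfies d i j k ↔ ∑ t, coeffVec n i j k t * d t = 0 := by
  have key : ∑ t : Fin n, ((if i ≤ (t : ℕ) ∧ (t : ℕ) < j then d t else 0) -
      (if j ≤ (t : ℕ) ∧ (t : ℕ) < k then d t else 0)) = ∑ t, coeffVec n i j k t * d t := by
    apply Finset.sum_congr rfl; intro t _
    unfold coeffVec
    by_cases h1 : i ≤ (t : ℕ) ∧ (t : ℕ) < j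
    · have h2 : ¬ (j ≤ (t : ℕ) ∧ (t : ℕ) < k) := by omega
      rw [if_pos h1, if_neg h2, if_pos h1]
      ring
    · rw [if_neg h1, if_neg h1]
      split_ifs <;> ring
  unfold Satisfies
  rw [Finset.sum_filter, Finset.sum_filter, ← sub_eq_zero, ← Finset.sum_sub_distrib, key]

theorem abel (v P : ℕ → ℝ) (hP0 : P 0 = 0) (m : ℕ) :
    ∑ c ∈ range m, (v c - v (c + 1)) * P (c + 1) + v m * P (m + 1)
      = ∑ t ∈ range (m + 1), v t * (P (t + 1) - P t) := by
  induction m with
  | zero => simp [hP0]
  | succ m ih =>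
    rw [Finset.sum_range_succ, Finset.sum_range_succ (n := m + 1), ← ih]
    ring

theorem co_diff (i j k c : ℕ) (h1 : i < j) (h2 : j < k) :
    co i j k c - co i j k (c + 1) =
      ((if c + 1 = j then 1 else 0) - (if c + 1 = i then 1 else 0)) +
      ((if c + 1 = j then 1 else 0) - (if c + 1 = k then 1 else 0)) := by
  unfold co
  split_ifs <;> omega

theorem lower_bound_aux {m : ℕ} (d : Fin (m + 1) → ℝ) (hpos : ∀ t, 0 < d t)
    (i j k : Fin m → ℕ)
    (he : ∀ r, i r < j r ∧ j r < k r ∧ k r ≤ m + 1 ∧ Satisfies d (i r) (j r) (k r))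
    (hli : LinearIndependent ℝ (fun r => coeffVec (m + 1) (i r) (j r) (k r)))
    (t : Fin (m + 1)) :
    ∑ s, d s ≤ 2 ^ m * d t := by
  -- partial sums
  set d' : ℕ → ℝ := fun s => if h : s < m + 1 then d ⟨s, h⟩ else 0 with hd'
  set P : ℕ → ℝ := fun s => ∑ u ∈ range s, d' u with hPdef
  have hP0 : P 0 = 0 := by simp [hPdef]
  have hPs : ∀ s, P (s + 1) - P s = d' s := by
    intro s; simp [hPdef, Finset.sum_range_succ]
  have hd'fin : ∀ s : Fin (m + 1), d' s = d s := by
    intro s
    simp only [hd']
    rw [dif_pos s.isLt]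
  set L : ℝ := ∑ s, d s with hL
  have hPL : P (m + 1) = L := by
    simp only [hPdef, hL]
    rw [Finset.sum_range]
    exact Finset.sum_congr rfl (fun s _ => hd'fin s)
  have hLpos : 0 < L := Finset.sum_pos (fun s _ => hpos s) ⟨t, Finset.mem_univ t⟩
  -- the integer matrix
  let M : Matrix (Fin m) (Fin m) ℤ := Matrix.of fun r c =>
    co (i r) (j r) (k r) c - co (i r) (j r) (k r) (c + 1)
  let R1 : Fin m → Fin m → ℤ := fun r c =>
    (if (c : ℕ) + 1 = j r then 1 else 0) - (if (c : ℕ) + 1 = i r then 1 else 0)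
  let R2 : Fin m → Fin m → ℤ := fun r c =>
    (if (c : ℕ) + 1 = j r then 1 else 0) - (if (c : ℕ) + 1 = k r then 1 else 0)
  have hMR : M = Matrix.of (R1 + R2) := by
    ext r c
    simp only [M, R1, R2, Matrix.of_apply, Pi.add_apply]
    exact co_diff _ _ _ _ (he r).1 (he r).2.1
  have hdetle : |M.det| ≤ 2 ^ m := by
    rw [hMR]
    apply det_sum_le
    intro s r
    by_cases hrs : r ∈ s
    · have hrow : (Matrix.of (s.piecewise R1 R2)) r = R1 r :=
        Finset.piecewise_eq_of_mem s R1 R2 hrs
      have hij := (he r).1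
      rw [hrow]
      simp only [R1]
      refine ⟨fun c => ?_, fun c c' h h' => ?_, fun c c' h h' => ?_⟩
      · split_ifs <;> simp
      · have : (c : ℕ) + 1 = j r := by by_contra hc; rw [if_neg hc] at h; split_ifs at h <;> omega
        have : (c' : ℕ) + 1 = j r := by
          by_contra hc; rw [if_neg hc] at h'; split_ifs at h' <;> omega
        exact Fin.ext (by omega)
      · have : (c : ℕ) + 1 = i r := by by_contra hc; rw [if_neg hc] at h; split_ifs at h <;> omega
        have : (c' : ℕ) + 1 = i r := by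
          by_contra hc; rw [if_neg hc] at h'; split_ifs at h' <;> omega
        exact Fin.ext (by omega)
    · have hrow : (Matrix.of (s.piecewise R1 R2)) r = R2 r :=
        Finset.piecewise_eq_of_notMem s R1 R2 hrs
      have hjk := (he r).2.1
      rw [hrow]
      simp only [R2]
      refine ⟨fun c => ?_, fun c c' h h' => ?_, fun c c' h h' => ?_⟩
      · split_ifs <;> simp
      · have : (c : ℕ) + 1 = j r := by by_contra hc; rw [if_neg hc] at h; split_ifs at h <;> omega
        have : (c' : ℕ) + 1 = j r := by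
          by_contra hc; rw [if_neg hc] at h'; split_ifs at h' <;> omega
        exact Fin.ext (by omega)
      · have : (c : ℕ) + 1 = k r := by by_contra hc; rw [if_neg hc] at h; split_ifs at h <;> omega
        have : (c' : ℕ) + 1 = k r := by
          by_contra hc; rw [if_neg hc] at h'; split_ifs at h' <;> omega
        exact Fin.ext (by omega)
  -- real version
  let MR : Matrix (Fin m) (Fin m) ℝ := M.map (Int.cast : ℤ → ℝ)
  have hMRdet : MR.det = ((M.det : ℤ) : ℝ) := by
    simpa using (RingHom.map_det (Int.castRingHom ℝ) M).symm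
  -- annihilation
  have hann : ∀ r, ∑ s ∈ range (m + 1), ((co (i r) (j r) (k r) s : ℤ) : ℝ) * d' s = 0 := by
    intro r
    have h := (satisfies_iff d (i r) (j r) (k r)).mp (he r).2.2.2
    rw [Finset.sum_range, ← h]
    apply Finset.sum_congr rfl; intro s _
    rw [coeffVec_eq, hd'fin]
  -- the rows of MR are linearly independent
  have hrows : LinearIndependent ℝ MR.row := by
    rw [Fintype.linearIndependent_iff]
    intro g hg
    rw [Fintype.linearIndependent_iff] at hli
    apply hli g
    -- w s = sum over r of g r * co r s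
    set w : ℕ → ℝ := fun s => ∑ r, g r * ((co (i r) (j r) (k r) s : ℤ) : ℝ) with hw
    have hstep : ∀ c, c < m → w c = w (c + 1) := by
      intro c hc
      have h := congrFun hg ⟨c, hc⟩
      simp only [Finset.sum_apply, Pi.smul_apply, smul_eq_mul, Pi.zero_apply] at h
      have h2 : ∑ r, g r * MR.row r ⟨c, hc⟩ = w c - w (c + 1) := by
        simp only [hw, ← Finset.sum_sub_distrib]
        apply Finset.sum_congr rfl; intro r _
        simp only [Matrix.row, MR, M, Matrix.map_apply, Matrix.of_apply]
        push_cast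
        ring
      rw [h2] at h
      linarith
    have hconst : ∀ c, c ≤ m → w c = w 0 := by
      intro c
      induction c with
      | zero => intro _; rfl
      | succ c ih =>
        intro hc
        rw [← hstep c (by omega)]
        exact ih (by omega)
    have hwL : ∑ s ∈ range (m + 1), w s * d' s = 0 := by
      simp only [hw, Finset.sum_mul]
      rw [Finset.sum_comm]
      apply Finset.sum_eq_zero; intro r _
      have := hann r
      calc ∑ s ∈ range (m + 1), g r * ((co (i r) (j r) (k r) s : ℤ) : ℝ) * d' s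
          = g r * ∑ s ∈ range (m + 1), ((co (i r) (j r) (k r) s : ℤ) : ℝ) * d' s := by
            rw [Finset.mul_sum]
            apply Finset.sum_congr rfl; intro s _; ring
        _ = 0 := by rw [this, mul_zero]
    have hw0 : w 0 = 0 := by
      have h3 : ∑ s ∈ range (m + 1), w s * d' s = w 0 * L := by
        rw [← hPL]
        simp only [hPdef, Finset.mul_sum]
        apply Finset.sum_congr rfl; intro s hs
        rw [hconst s (by have := Finset.mem_range.mp hs; omega)]
      rw [h3] at hwL
      rcases mul_eq_zero.mp hwL with h | h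
      · exact h
      · exact absurd h hLpos.ne'
    funext s
    simp only [Finset.sum_apply, Pi.smul_apply, smul_eq_mul, Pi.zero_apply]
    have h4 : ∑ r, g r * coeffVec (m + 1) (i r) (j r) (k r) s = w s := by
      simp only [hw]
      apply Finset.sum_congr rfl; intro r _
      rw [coeffVec_eq]
    rw [h4, hconst s (by have := s.isLt; omega), hw0]
  have hdet0 : MR.det ≠ 0 := by
    have := (Matrix.linearIndependent_rows_iff_isUnit (A := MR)).mp hrows
    rw [Matrix.isUnit_iff_isUnit_det] at this
    exact this.ne_zero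
  -- the linear system
  let β : Fin m → ℤ := fun r => - co (i r) (j r) (k r) m
  have hsys : MR.mulVec (fun c => P (c + 1)) = fun r => L * ((β r : ℤ) : ℝ) := by
    funext r
    have h := abel (fun s => ((co (i r) (j r) (k r) s : ℤ) : ℝ)) P hP0 m
    have h2 : ∑ s ∈ range (m + 1), ((co (i r) (j r) (k r) s : ℤ) : ℝ) * (P (s + 1) - P s) = 0 := by
      rw [← hann r]
      apply Finset.sum_congr rfl; intro s _
      rw [hPs]
    rw [h2, hPL, Finset.sum_range] at h
    simp only [Matrix.mulVec, dotProduct, MR, M, Matrix.map_apply, Matrix.of_apply, β]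
    push_cast
    linarith
  let N : Fin m → ℤ := M.adjugate.mulVec β
  have hcramer : ∀ c : Fin m, ((M.det : ℤ) : ℝ) * P (c + 1) = L * ((N c : ℤ) : ℝ) := by
    intro c
    have h1 : MR.adjugate.mulVec (MR.mulVec (fun c : Fin m => P (c + 1)))
        = MR.det • (fun c : Fin m => P (c + 1)) := by
      rw [Matrix.mulVec_mulVec, Matrix.adjugate_mul, Matrix.smul_mulVec, Matrix.one_mulVec]
    rw [hsys] at h1
    have h2 := congrFun h1 c
    simp only [Pi.smul_apply, smul_eq_mul, hMRdet] at h2
    rw [← h2]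
    have h3 : MR.adjugate = M.adjugate.map (Int.cast : ℤ → ℝ) := by
      have := (RingHom.map_adjugate (Int.castRingHom ℝ) M).symm
      simpa using this
    simp only [N, Matrix.mulVec, dotProduct, h3, Matrix.map_apply]
    push_cast
    rw [Finset.mul_sum]
    apply Finset.sum_congr rfl; intro r _
    ring
  let N' : ℕ → ℤ := fun s => if s = 0 then 0 else if h : s - 1 < m then N ⟨s - 1, h⟩ else M.det
  have hN' : ∀ s, s ≤ m + 1 → ((M.det : ℤ) : ℝ) * P s = L * ((N' s : ℤ) : ℝ) := by
    intro s hs
    rcases Nat.eq_zero_or_pos s with h0 | h0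
    · subst h0; simp [N', hP0]
    · by_cases hsm : s - 1 < m
      · have := hcramer ⟨s - 1, hsm⟩
        have hs1 : s - 1 + 1 = s := by omega
        simp only [hs1] at this
        simp only [N', h0.ne', if_false, hsm, dif_pos]
        exact this
      · have : s = m + 1 := by omega
        subst this
        simp only [N', Nat.succ_ne_zero, if_false, hsm, dif_neg, not_false_eq_true, hPL]
        ring
  have hdt : ((M.det : ℤ) : ℝ) * d t = L * ((N' (t + 1) - N' t : ℤ) : ℝ) := by
    have h1 := hN' (t + 1) (by have := t.isLt; omega)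
    have h2 := hN' t (by have := t.isLt; omega)
    have h3 := hPs t
    rw [hd'fin] at h3
    rw [← h3]
    rw [Int.cast_sub, mul_sub, mul_sub, h1, h2]
  have hdet0' : ((M.det : ℤ) : ℝ) ≠ 0 := by rw [← hMRdet]; exact hdet0
  have hne : (N' (t + 1) - N' t : ℤ) ≠ 0 := by
    intro h
    rw [h] at hdt
    simp only [Int.cast_zero, mul_zero] at hdt
    rcases mul_eq_zero.mp hdt with h' | h'
    · exact hdet0' h'
    · exact (hpos t).ne' h'
  have habs : |((M.det : ℤ) : ℝ)| * d t = L * |((N' (t + 1) - N' t : ℤ) : ℝ)| := by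
    have := congrArg abs hdt
    rwa [abs_mul, abs_mul, abs_of_pos (hpos t), abs_of_pos hLpos] at this
  have h1le : (1 : ℝ) ≤ |((N' (t + 1) - N' t : ℤ) : ℝ)| := by
    have := Int.one_le_abs hne
    exact_mod_cast this
  have hdle : |((M.det : ℤ) : ℝ)| ≤ 2 ^ m := by exact_mod_cast hdetle
  calc L = L * 1 := by ring
    _ ≤ L * |((N' (t + 1) - N' t : ℤ) : ℝ)| := mul_le_mul_of_nonneg_left h1le hLpos.le
    _ = |((M.det : ℤ) : ℝ)| * d t := habs.symm
    _ ≤ 2 ^ m * d t := mul_le_mul_of_nonneg_right hdle (hpos t).le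

theorem lower_bound {m : ℕ} (d : Fin (m + 1) → ℝ) (hd : IsTypeA d) (t : Fin (m + 1)) :
    ∑ s, d s ≤ 2 ^ m * d t := by
  obtain ⟨hpos, i, j, k, he, hli⟩ := hd
  exact lower_bound_aux d hpos i j k he hli t

/-! ### The sequence `1, 1, 2, 4, ...` -/

/-- The sequence `1, 1, 2, 4, ..., 2 ^ (n - 2)`. -/
def pw (n : ℕ) : Fin n → ℕ := fun t => 2 ^ ((t : ℕ) - 1)

theorem sum_pw (s : ℕ) : ∑ t ∈ range (s + 1), (2 : ℝ) ^ (t - 1) = 2 ^ s := by
  induction s with
  | zero => simp
  | succ s ih =>
    rw [Finset.sum_range_succ, ih, Nat.add_sub_cancel]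
    ring

theorem pw_satisfies (n j : ℕ) (hj : j + 1 < n) :
    Satisfies (fun t => ((pw n t : ℕ) : ℝ)) 0 (j + 1) (j + 2) := by
  unfold Satisfies
  have e1 : ∑ t ∈ univ.filter (fun t : Fin n => 0 ≤ (t : ℕ) ∧ (t : ℕ) < j + 1),
      ((pw n t : ℕ) : ℝ) = ∑ t ∈ range (j + 1), (2 : ℝ) ^ (t - 1) := by
    symm
    refine Finset.sum_bij' (fun t ht => (⟨t, by have := Finset.mem_range.mp ht; omega⟩ : Fin n))
      (fun t _ => (t : ℕ)) ?_ ?_ ?_ ?_ ?_
    · intro t ht
      have := Finset.mem_range.mp ht
      simp only [Finset.mem_filter, Finset.mem_univ, true_and]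
      omega
    · intro t ht
      simp only [Finset.mem_filter] at ht
      exact Finset.mem_range.mpr ht.2.2
    · intro t _; rfl
    · intro t _; rfl
    · intro t _; simp [pw]
  have e2 : univ.filter (fun t : Fin n => j + 1 ≤ (t : ℕ) ∧ (t : ℕ) < j + 2)
      = {(⟨j + 1, hj⟩ : Fin n)} := by
    ext t
    simp only [Finset.mem_filter, Finset.mem_univ, true_and, Finset.mem_singleton, Fin.ext_iff]
    omega
  rw [e1, e2, sum_pw, Finset.sum_singleton]
  simp [pw]

theorem pw_linInd (m : ℕ) :
    LinearIndependent ℝ (fun r : Fin m => coeffVec (m + 1) 0 ((r : ℕ) + 1) ((r : ℕ) + 2)) := by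
  -- restrict to the coordinates 1, ..., m
  let φ : (Fin (m + 1) → ℝ) →ₗ[ℝ] (Fin m → ℝ) :=
    { toFun := fun v c => v c.succ
      map_add' := fun _ _ => rfl
      map_smul' := fun _ _ => rfl }
  apply LinearIndependent.of_comp φ
  let T : Matrix (Fin m) (Fin m) ℝ := Matrix.of fun r c =>
    coeffVec (m + 1) 0 ((r : ℕ) + 1) ((r : ℕ) + 2) c.succ
  have hT : LinearIndependent ℝ T.row := by
    rw [Matrix.linearIndependent_rows_iff_isUnit, Matrix.isUnit_iff_isUnit_det]
    have hlt : T.BlockTriangular OrderDual.toDual := by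
      intro r c hrc
      have hrc' : (r : ℕ) < (c : ℕ) := hrc
      simp only [T, Matrix.of_apply, coeffVec, Fin.val_succ]
      rw [if_neg (by omega), if_neg (by omega)]
    rw [Matrix.det_of_isLowerTriangular T hlt]
    have hdiag : ∀ r, T r r = -1 := by
      intro r
      simp only [T, Matrix.of_apply, coeffVec, Fin.val_succ]
      rw [if_neg (by omega), if_pos (by omega)]
    rw [Finset.prod_congr rfl (fun r _ => hdiag r)]
    simp
  exact hT

theorem pw_mem (n : ℕ) (hn : 1 ≤ n) : pw n ∈ typeASet n := by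
  obtain ⟨m, rfl⟩ : ∃ m, n = m + 1 := ⟨n - 1, by omega⟩
  refine ⟨⟨fun t => by simp [pw], fun _ => 0, fun r => (r : ℕ) + 1, fun r => (r : ℕ) + 2,
    fun r => ⟨Nat.succ_pos _, Nat.lt_succ_self _, ?_, ?_⟩, ?_⟩, ?_⟩
  · have := r.isLt
    change (r : ℕ) + 2 ≤ m + 1
    omega
  · exact pw_satisfies (m + 1) r (by have := r.isLt; omega)
  · exact pw_linInd m
  · have h : (Finset.univ : Finset (Fin (m + 1))).gcd (pw (m + 1)) ∣ pw (m + 1) 0 :=
      Finset.gcd_dvd (Finset.mem_univ 0)
    have h2 : pw (m + 1) 0 = 1 := by simp [pw]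
    rw [h2] at h
    exact Nat.dvd_one.mp h

/-- For every `n ≥ 1`, the least value of (smallest term) / (sum of the terms) over the `n`-term
type A sequences in smallest-integer format is exactly `1 / 2 ^ (n - 1)`. -/
theorem result : ∀ n : ℕ, 1 ≤ n →
    IsLeast {x : ℝ | ∃ d ∈ typeASet n, x = (⨅ t, (d t : ℝ)) / ∑ t, (d t : ℝ)}
      (1 / 2 ^ (n - 1)) := by
  intro n hn
  obtain ⟨m, rfl⟩ : ∃ m, n = m + 1 := ⟨n - 1, by omega⟩
  rw [Nat.add_sub_cancel]
  have lb : ∀ d ∈ typeASet (m + 1),
      (1 : ℝ) / 2 ^ m ≤ (⨅ t, (d t : ℝ)) / ∑ t, (d t : ℝ) := by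
    intro d hd
    have hS : 0 < ∑ t, (d t : ℝ) := Finset.sum_pos (fun t _ => hd.1.1 t) ⟨0, Finset.mem_univ 0⟩
    rw [div_le_div_iff₀ (by positivity) hS, one_mul]
    have h1 : ∀ t, (∑ t, (d t : ℝ)) / 2 ^ m ≤ (d t : ℝ) := by
      intro t
      rw [div_le_iff₀ (by positivity)]
      have := lower_bound (fun t => (d t : ℝ)) hd.1 t
      linarith
    have h2 : (∑ t, (d t : ℝ)) / 2 ^ m ≤ ⨅ t, (d t : ℝ) := le_ciInf h1
    rwa [div_le_iff₀ (by positivity)] at h2
  constructor
  · refine ⟨pw (m + 1), pw_mem (m + 1) (by omega), ?_⟩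
    have hsum : ∑ t, ((pw (m + 1) t : ℕ) : ℝ) = 2 ^ m := by
      rw [← sum_pw m, Finset.sum_range]
      apply Finset.sum_congr rfl; intro t _
      simp [pw]
    have hinf : (⨅ t, ((pw (m + 1) t : ℕ) : ℝ)) = 1 := by
      apply le_antisymm
      · have h0 : ((pw (m + 1) 0 : ℕ) : ℝ) = 1 := by simp [pw]
        calc (⨅ t, ((pw (m + 1) t : ℕ) : ℝ)) ≤ ((pw (m + 1) 0 : ℕ) : ℝ) :=
              ciInf_le (Set.finite_range _).bddBelow 0
          _ = 1 := h0
      · apply le_ciInf
        intro t
        have : 1 ≤ pw (m + 1) t := Nat.one_le_two_pow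
        exact_mod_cast this
    rw [hsum, hinf]
  · rintro x ⟨d, hd, rfl⟩
    exact lb d hd

end Pool.Agent.Results.MP_6f4934_co.MinRelativeTerm
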